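import Mathlib.Tactic

/-! MP_c1e66d_co: four by four determinants, the Grassmann - Plücker relation, five vectors. -/

set_option autoImplicit false

namespace BS9

/-- the determinant of four vectors of `ℝ^4` -/
def D4 (u v w z : Fin 4 → ℝ) : ℝ :=
  (u 0 * v 1 - u 1 * v 0) * (w 2 * z 3 - w 3 * z 2)
  - (u 0 * v 2 - u 2 * v 0) * (w 1 * z 3 - w 3 * z 1)
  + (u 0 * v 3 - u 3 * v 0) * (w 1 * z 2 - w 2 * z 1)
  + (u 1 * v 2 - u 2 * v 1) * (w 0 * z 3 - w 3 * z 0)
  - (u 1 * v 3 - u 3 * v 1) * (w 0 * z 2 - w 2 * z 0)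
  + (u 2 * v 3 - u 3 * v 2) * (w 0 * z 1 - w 1 * z 0)

theorem D4_eq_det (u v w z : Fin 4 → ℝ) : D4 u v w z = (Matrix.of ![u, v, w, z]).det := by
  rw [Matrix.det_succ_row_zero]
  simp [Fin.sum_univ_succ, Matrix.det_succ_row_zero, Fin.succAbove, D4]
  ring

theorem D4_swap12 (u v w z : Fin 4 → ℝ) : D4 v u w z = - D4 u v w z := by unfold D4; ring
theorem D4_swap23 (u v w z : Fin 4 → ℝ) : D4 u w v z = - D4 u v w z := by unfold D4; ring
theorem D4_swap34 (u v w z : Fin 4 → ℝ) : D4 u v z w = - D4 u v w z := by unfold D4; ring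

/-- three term Grassmann - Plücker relation -/
theorem gp (a b k l m n : Fin 4 → ℝ) :
    D4 a b k l * D4 a b m n - D4 a b k m * D4 a b l n + D4 a b k n * D4 a b l m = 0 := by
  unfold D4; ring

/-- the linear relation of five vectors -/
theorem cramer5 (a b c d e : Fin 4 → ℝ) (i : Fin 4) :
    D4 b c d e * a i - D4 a c d e * b i + D4 a b d e * c i - D4 a b c e * d i
      + D4 a b c d * e i = 0 := by
  unfold D4
  fin_cases i <;> simp <;> ring

end BS9
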